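import Mathlib
import Pool.Agent.Y667.OG.Stm

set_option autoImplicit false

namespace Pool.Agent.Y624.OG

open Matrix

/-- a submodule which contains a multiple has the same rank -/
theorem fr {A : Type} [AddCommGroup A] [Module.Finite ℤ A] (B : Submodule ℤ A) (t : ℤ) (ht : t ≠ 0)
    (h : ∀ a : A, t • a ∈ B) : Module.finrank ℤ B = Module.finrank ℤ A := by
  have h1 := Submodule.finrank_quotient_add_finrank B
  have h2 : Module.finrank ℤ (A ⧸ B) = 0 := by
    rw [Module.finrank_eq_zero_iff_isTorsion]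
    intro x
    obtain ⟨a, rfl⟩ := Submodule.Quotient.mk_surjective B x
    refine ⟨⟨t, mem_nonZeroDivisors_of_ne_zero ht⟩, ?_⟩
    show t • (Submodule.Quotient.mk a : A ⧸ B) = 0
    rw [← Submodule.Quotient.mk_smul, Submodule.Quotient.mk_eq_zero]
    exact h a
  omega

/-- an exponent of the torsion -/
theorem tor {M : Type} [AddCommGroup M] [Module.Finite ℤ M] :
    ∃ t : ℤ, t ≠ 0 ∧ ∀ (x : M) (n : ℤ), n ≠ 0 → n • x = 0 → t • x = 0 := by
  have h1 : Module.IsTorsion ℤ (Submodule.torsion ℤ M) := Submodule.torsion_isTorsion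
  have h2 := Submodule.annihilator_top_inter_nonZeroDivisors h1
  obtain ⟨t, ht1, ht2⟩ := h2
  refine ⟨t, nonZeroDivisors.ne_zero ht2, fun x n hn hx => ?_⟩
  have h3 : x ∈ Submodule.torsion ℤ M :=
    ⟨⟨n, mem_nonZeroDivisors_of_ne_zero hn⟩, hx⟩
  have h4 := Submodule.mem_annihilator.1 ht1 ⟨x, h3⟩ Submodule.mem_top
  exact congrArg Subtype.val h4

/-- the traces of a matrix representation of a finite group are even functions -/
theorem tr_inv {G : Type} [Group G] [Fintype G] {n : Type} [Fintype n] [DecidableEq n]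
    (R : G → Matrix n n ℤ) (h1 : R 1 = 1) (hm : ∀ g h, R (g * h) = R g * R h) (g : G) :
    (R g⁻¹).trace = (R g).trace := by
  let S : Matrix n n ℤ := ∑ h, (R h)ᵀ * R h
  have hS : (R g)ᵀ * S * R g = S := by
    show (R g)ᵀ * (∑ h, (R h)ᵀ * R h) * R g = ∑ h, (R h)ᵀ * R h
    rw [Finset.mul_sum, Finset.sum_mul]
    have h2 : ∀ h, (R g)ᵀ * ((R h)ᵀ * R h) * R g = (R (h * g))ᵀ * R (h * g) := by
      intro h
      rw [hm, Matrix.transpose_mul]
      simp only [Matrix.mul_assoc]
    rw [Finset.sum_congr rfl fun h _ => h2 h]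
    exact Fintype.sum_equiv (Equiv.mulRight g) _ _ fun h => rfl
  have hinv : R g * R g⁻¹ = 1 := by rw [← hm, mul_inv_cancel, h1]
  have h3 : (R g)ᵀ * S = S * R g⁻¹ := by
    have h4 : (R g)ᵀ * S * R g * R g⁻¹ = S * R g⁻¹ := by rw [hS]
    rwa [Matrix.mul_assoc, hinv, Matrix.mul_one] at h4
  have hdet : S.det ≠ 0 := by
    intro h0
    obtain ⟨v, hv, hv0⟩ := Matrix.exists_mulVec_eq_zero_iff.2 h0
    apply hv
    have h4 : v ⬝ᵥ (S *ᵥ v) = ∑ h, (R h *ᵥ v) ⬝ᵥ (R h *ᵥ v) := by
      show v ⬝ᵥ ((∑ h, (R h)ᵀ * R h) *ᵥ v) = _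
      rw [Matrix.sum_mulVec, dotProduct_sum]
      refine Finset.sum_congr rfl fun h _ => ?_
      rw [← Matrix.mulVec_mulVec, Matrix.dotProduct_mulVec, Matrix.vecMul_transpose]
    rw [hv0, dotProduct_zero] at h4
    have h5 : ∀ h, 0 ≤ (R h *ᵥ v) ⬝ᵥ (R h *ᵥ v) := fun h => by
      unfold dotProduct
      exact Finset.sum_nonneg fun i _ => mul_self_nonneg _
    have h6 := (Finset.sum_eq_zero_iff_of_nonneg fun h _ => h5 h).1 h4.symm 1 (Finset.mem_univ _)
    rw [h1, Matrix.one_mulVec] at h6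
    exact dotProduct_self_eq_zero.1 h6
  have h4 : S.det * (R g⁻¹).trace = S.det * (R g).trace := by
    have h5 : (S.adjugate * ((R g)ᵀ * S)).trace = (S.adjugate * (S * R g⁻¹)).trace := by rw [h3]
    rw [← Matrix.mul_assoc S.adjugate S, Matrix.adjugate_mul, Matrix.smul_mul, Matrix.one_mul,
      Matrix.trace_smul, Matrix.trace_mul_comm, Matrix.mul_assoc, Matrix.mul_adjugate,
      Matrix.mul_smul, Matrix.mul_one, Matrix.trace_smul, Matrix.trace_transpose] at h5
    simp only [smul_eq_mul] at h5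
    exact h5.symm
  exact mul_left_cancel₀ hdet h4

/-- the sum over a group of odd order -/
theorem sum_odd {G : Type} [Group G] [Fintype G] (hG : Odd (Nat.card G)) (f : G → ℤ)
    (hf : ∀ g, f g⁻¹ = f g) : Even (∑ g, f g - f 1) := by
  classical
  have h1 : ∑ g ∈ Finset.univ.erase (1 : G), (f g : ZMod 2) = 0 := by
    refine Finset.sum_involution (fun g _ => g⁻¹) ?_ ?_ ?_ ?_
    · intro g _
      rw [hf]
      exact CharTwo.add_self_eq_zero _
    · intro g hg _ h
      have h2 : g ^ 2 = 1 := by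
        rw [pow_two]
        nth_rewrite 1 [← h]
        exact inv_mul_cancel g
      have h3 : orderOf g ∣ 2 := orderOf_dvd_of_pow_eq_one h2
      have h4 : orderOf g ∣ Nat.card G := orderOf_dvd_natCard g
      have h5 : orderOf g ∣ 1 := by
        have h6 : Nat.Coprime 2 (Nat.card G) := (Nat.coprime_two_left).2 hG
        rw [← h6]
        exact Nat.dvd_gcd h3 h4
      exact (Finset.mem_erase.1 hg).1 (orderOf_eq_one_iff.1 (Nat.dvd_one.1 h5))
    · intro g hg
      rw [Finset.mem_erase] at hg ⊢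
      exact ⟨fun h => hg.1 (inv_eq_one.1 h), Finset.mem_univ _⟩
    · intro g _
      exact inv_inv g
  have h2 := Finset.add_sum_erase Finset.univ f (Finset.mem_univ (1 : G))
  have h3 : ∑ g, f g - f 1 = ∑ g ∈ Finset.univ.erase (1 : G), f g := by rw [← h2]; ring
  rw [h3, ← ZMod.intCast_zmod_eq_zero_iff_dvd _ 2 |>.trans even_iff_two_dvd.symm]
  push_cast
  exact h1

/-- the rank parity for a free module with a linear action and a submodule of invariants -/
theorem main_aux {G L J : Type} [Group G] [Fintype G] [AddCommGroup L] [AddCommGroup J]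
    [Module.Finite ℤ L] [Module.Free ℤ L] [Module.Finite ℤ J] [Module.Free ℤ J]
    (hG : Odd (Nat.card G)) (ρ : G →* (L →ₗ[ℤ] L)) (i : J →ₗ[ℤ] L) (N : L →ₗ[ℤ] J)
    (h1 : ∀ x, i (N x) = ∑ g, ρ g x) (h2 : ∀ y, N (i y) = (Nat.card G : ℤ) • y) :
    Even (Module.finrank ℤ L + Module.finrank ℤ J) := by
  classical
  let b := Module.Free.chooseBasis ℤ L
  let R : G → Matrix (Module.Free.ChooseBasisIndex ℤ L) (Module.Free.ChooseBasisIndex ℤ L) ℤ :=
    fun g => LinearMap.toMatrix b b (ρ g)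
  have hR1 : R 1 = 1 := by
    show LinearMap.toMatrix b b (ρ 1) = 1
    rw [map_one]
    exact LinearMap.toMatrix_one b
  have hRm : ∀ g h, R (g * h) = R g * R h := by
    intro g h
    show LinearMap.toMatrix b b (ρ (g * h)) = _
    rw [map_mul]
    exact LinearMap.toMatrix_mul b _ _
  have htr : ∀ g, LinearMap.trace ℤ L (ρ g) = (R g).trace := fun g =>
    LinearMap.trace_eq_matrix_trace ℤ b _
  have h3 := sum_odd hG (fun g => LinearMap.trace ℤ L (ρ g)) (fun g => by
    show LinearMap.trace ℤ L (ρ g⁻¹) = LinearMap.trace ℤ L (ρ g)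
    rw [htr, htr]
    exact tr_inv R hR1 hRm g)
  have h4 : ∑ g, LinearMap.trace ℤ L (ρ g) = (Nat.card G : ℤ) * Module.finrank ℤ J := by
    rw [← map_sum]
    have h5 : ∑ g, ρ g = i ∘ₗ N := by
      ext x
      rw [LinearMap.sum_apply, LinearMap.comp_apply, h1]
    have h6 : N ∘ₗ i = (Nat.card G : ℤ) • LinearMap.id := by
      ext y
      rw [LinearMap.comp_apply, h2]
      rfl
    rw [h5, LinearMap.trace_comp_comm', h6, map_smul, LinearMap.trace_id]
    rfl
  have h5 : LinearMap.trace ℤ L (ρ 1) = Module.finrank ℤ L := by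
    rw [map_one]
    exact LinearMap.trace_one ℤ L
  rw [h4, h5] at h3
  obtain ⟨c, hc⟩ := hG
  rw [hc] at h3
  obtain ⟨d, hd⟩ := h3
  have h6 : Even ((Module.finrank ℤ L : ℤ) + Module.finrank ℤ J) := by
    refine ⟨Module.finrank ℤ L + d - c * Module.finrank ℤ J, ?_⟩
    push_cast at hd
    linear_combination hd
  exact_mod_cast h6

theorem ODDG : Pool.Agent.Y667.OG.St_ODDG := by
  intro G M _ _ _ _ _ hG
  classical
  have hfin : Fintype G := Fintype.ofFinite G
  obtain ⟨t, ht0, ht⟩ := tor (M := M)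
  let ρ0 : G →* (M →ₗ[ℤ] M) :=
    { toFun := fun g => (DistribSMul.toAddMonoidHom M g).toIntLinearMap
      map_one' := by
        ext x
        exact one_smul G x
      map_mul' := by
        intro g h
        ext x
        exact mul_smul g h x }
  have hρ0 : ∀ g x, ρ0 g x = g • x := fun g x => rfl
  let L : Submodule ℤ M := LinearMap.range (t • (LinearMap.id : M →ₗ[ℤ] M))
  have hL : ∀ x ∈ L, ∃ m, t • m = x := fun x hx => by
    obtain ⟨m, hm⟩ := hx
    exact ⟨m, hm⟩
  have hL' : ∀ m, t • m ∈ L := fun m => ⟨m, rfl⟩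
  have hρL : ∀ g, ∀ x ∈ L, ρ0 g x ∈ L := by
    intro g x hx
    obtain ⟨m, rfl⟩ := hL x hx
    rw [map_smul]
    exact hL' _
  let ρ : G →* (L →ₗ[ℤ] L) :=
    { toFun := fun g => (ρ0 g).restrict (hρL g)
      map_one' := by
        ext x
        exact one_smul G (x : M)
      map_mul' := by
        intro g h
        ext x
        exact mul_smul g h (x : M) }
  let inc : FixedPoints.addSubgroup G M →ₗ[ℤ] M :=
    (FixedPoints.addSubgroup G M).subtype.toIntLinearMap
  have hincinj : Function.Injective inc := Subtype.val_injective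
  have hFf : Module.Finite ℤ (FixedPoints.addSubgroup G M) := Module.Finite.of_injective inc hincinj
  let J : Submodule ℤ (FixedPoints.addSubgroup G M) := L.comap inc
  have tfL : ∀ (n : ℤ) (x : M), x ∈ L → n • x = 0 → n = 0 ∨ x = 0 := by
    intro n x hx h
    obtain ⟨m, rfl⟩ := hL x hx
    by_cases hn : n = 0
    · exact Or.inl hn
    · right
      rw [smul_smul] at h
      exact ht m _ (mul_ne_zero hn ht0) h
  have hLtf : Module.IsTorsionFree ℤ L := by
    refine Module.IsTorsionFree.of_smul_eq_zero fun n x h => ?_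
    rcases tfL n x x.2 (congrArg Subtype.val h) with h1 | h1
    · exact Or.inl h1
    · exact Or.inr (Subtype.ext h1)
  have hJtf : Module.IsTorsionFree ℤ J := by
    refine Module.IsTorsionFree.of_smul_eq_zero fun n x h => ?_
    rcases tfL n (inc x) x.2 (by
      rw [← map_smul]
      have h1 : n • (x : FixedPoints.addSubgroup G M) = 0 := congrArg Subtype.val h
      rw [h1, map_zero]) with h1 | h1
    · exact Or.inl h1
    · exact Or.inr (Subtype.ext (hincinj (by rw [h1]; exact (map_zero inc).symm)))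
  let i : J →ₗ[ℤ] L := (inc ∘ₗ J.subtype).codRestrict L fun y => y.2
  have hN0 : ∀ x : M, (∑ g, ρ0 g) x ∈ FixedPoints.addSubgroup G M := by
    intro x h
    show h • (∑ g, ρ0 g) x = (∑ g, ρ0 g) x
    rw [LinearMap.sum_apply, Finset.smul_sum]
    refine Fintype.sum_equiv (Equiv.mulLeft h) _ _ fun g => ?_
    exact (mul_smul h g x).symm
  let N1 : M →ₗ[ℤ] FixedPoints.addSubgroup G M :=
    (AddMonoidHom.codRestrict (∑ g, ρ0 g : M →ₗ[ℤ] M).toAddMonoidHom
      (FixedPoints.addSubgroup G M) hN0).toIntLinearMap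
  have hN1 : ∀ x : M, inc (N1 x) = ∑ g : G, g • x := by
    intro x
    show (∑ g, ρ0 g) x = _
    rw [LinearMap.sum_apply]
    rfl
  let N : L →ₗ[ℤ] J := (N1 ∘ₗ L.subtype).codRestrict J fun x => by
    obtain ⟨m, hm⟩ := hL x x.2
    show inc (N1 x) ∈ L
    rw [← hm, map_smul, map_smul]
    exact hL' _
  have hmain := main_aux hG ρ i N (by
    intro x
    apply Subtype.ext
    show inc (N1 x) = ((∑ g : G, ρ g x : L) : M)
    rw [hN1, AddSubmonoidClass.coe_finsetSum]
    rfl) (by
    intro y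
    apply Subtype.ext
    apply hincinj
    show inc (N1 (inc y)) = inc ((Nat.card G : ℤ) • (y : FixedPoints.addSubgroup G M))
    rw [hN1, map_smul]
    have h1 : ∀ g : G, g • inc y = inc y := fun g => (y : FixedPoints.addSubgroup G M).2 g
    rw [Finset.sum_congr rfl fun g _ => h1 g, Finset.sum_const, Finset.card_univ,
      Nat.card_eq_fintype_card, natCast_zsmul])
  rw [fr L t ht0 hL', fr J t ht0 fun a => ?_] at hmain
  · exact hmain
  · show inc (t • a) ∈ L
    rw [map_smul]
    exact hL' _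

end Pool.Agent.Y624.OG
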